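import Pool.Graph.R_pool_sql_team_39128cda.H.MP_1ef125_al.C

namespace Pool.Agent.helper67DD

open Finset

variable {K : Type} [Field K] {t : ℕ}

abbrev I (t : ℕ) : Type := ZMod (2 * t + 3)
abbrev LL (t : ℕ) : ℕ := 2 * (2 * t + 3)
abbrev Box (t : ℕ) : Type := I t → Fin (LL t)

def E (K : Type) [Field K] (t : ℕ) : Type := Box t →₀ K

noncomputable instance : AddCommGroup (E K t) := inferInstanceAs (AddCommGroup (Box t →₀ K))
noncomputable instance : Module K (E K t) := inferInstanceAs (Module K (Box t →₀ K))
instance : FiniteDimensional K (E K t) := inferInstanceAs (FiniteDimensional K (Box t →₀ K))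

def inb (a : I t → ℕ) : Prop := ∀ j, a j < LL t

def vl (b : Box t) : I t → ℕ := fun j => (b j).val

theorem inb_vl (b : Box t) : inb (vl b) := fun j => (b j).2

noncomputable def sg (K : Type) [Field K] (b : Box t) : E K t := Finsupp.single b (1 : K)

open Classical in
noncomputable def u (K : Type) [Field K] (a : I t → ℕ) : E K t := if h : inb a then sg K (fun j => ⟨a j, h j⟩) else 0

theorem u_vl (b : Box t) : u K (vl b) = sg K b := by
  rw [u, dif_pos (inb_vl b)]; rfl

theorem u_out {a : I t → ℕ} (h : ¬ inb a) : u K a = 0 := by rw [u, dif_neg h]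

noncomputable def lift {M : Type} [AddCommGroup M] [Module K M] (f : (I t → ℕ) → M) :
    E K t →ₗ[K] M := Finsupp.linearCombination K (fun b : Box t => f (vl b))

theorem lift_in {M : Type} [AddCommGroup M] [Module K M] (f : (I t → ℕ) → M) {a : I t → ℕ}
    (h : inb a) : lift f (u K a) = f a := by
  rw [u, dif_pos h]
  exact (Finsupp.linearCombination_single K (v := fun b : Box t => f (vl b)) 1 _).trans (one_smul _ _)

theorem lift_u {M : Type} [AddCommGroup M] [Module K M] (f : (I t → ℕ) → M)
    (hf : ∀ a, ¬ inb a → f a = 0) (a : I t → ℕ) : lift f (u K a) = f a := by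
  by_cases h : inb a
  · exact lift_in f h
  · rw [u_out h, map_zero, hf a h]

theorem lext {M : Type} [AddCommGroup M] [Module K M] {f g : E K t →ₗ[K] M}
    (h : ∀ a, inb a → f (u K a) = g (u K a)) : f = g := by
  apply Finsupp.lhom_ext'
  intro b
  apply LinearMap.ext_ring
  have := h (vl b) (inb_vl b)
  rw [u_vl] at this
  exact this

theorem E_ind {P : E K t → Prop} (hu : ∀ a, inb a → P (u K a)) (h0 : P 0)
    (ha : ∀ x y, P x → P y → P (x + y)) (hs : ∀ (c : K) x, P x → P (c • x)) (z : E K t) : P z := by
  refine Finsupp.induction_linear (motive := P) z h0 ha ?_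
  intro b c
  have h := hs c _ (hu _ (inb_vl b))
  rw [u_vl] at h
  have e : c • sg K b = (Finsupp.single b c : Box t →₀ K) := by
    change c • (Finsupp.single b (1 : K) : Box t →₀ K) = _
    rw [Finsupp.smul_single, smul_eq_mul, mul_one]
  rw [e] at h
  exact h

noncomputable def co (K : Type) [Field K] (b : Box t) : E K t →ₗ[K] K := Finsupp.lapply b

theorem co_u (b : Box t) (a : I t → ℕ) : co K b (u K a) = if a = vl b then 1 else 0 := by
  by_cases h : inb a
  · rw [u, dif_pos h]
    change (Finsupp.single _ (1 : K) : Box t →₀ K) b = _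
    rw [Finsupp.single_apply]
    congr 1
    apply propext
    constructor
    · rintro rfl; rfl
    · rintro rfl; rfl
  · rw [u_out h, map_zero, if_neg]
    rintro rfl
    exact h (inb_vl b)

theorem co_ext (z : E K t) (h : ∀ b, co K b z = 0) : z = 0 := Finsupp.ext h

def sh (s : I t) (a : I t → ℕ) : I t → ℕ := fun j => a (j - s)
def deg (a : I t → ℕ) : ℕ := ∑ j, a j
def bb (a b : I t → ℕ) : ℕ := ∑ i, ∑ j, a i * b j * (j - i).val
def chi (K : Type) [Field K] (a b : I t → ℕ) : K := (-1) ^ bb a b
def e (j : I t) : I t → ℕ := Pi.single j 1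

theorem sh_add (s : I t) (a b : I t → ℕ) : sh s (a + b) = sh s a + sh s b := rfl
theorem sh_sh (s s' : I t) (a : I t → ℕ) : sh s (sh s' a) = sh (s + s') a := by
  funext j; simp only [sh, sub_sub]
theorem sh_zero (a : I t → ℕ) : sh 0 a = a := by funext j; simp [sh]
theorem sh_z (s : I t) : sh s (0 : I t → ℕ) = 0 := rfl
theorem sh_e (s j : I t) : sh s (e j) = e (j + s) := by
  funext i
  simp only [sh, e, Pi.single_apply, sub_eq_iff_eq_add]
theorem inb_sh (s : I t) (a : I t → ℕ) : inb (sh s a) ↔ inb a :=
  ⟨fun h j => by simpa [sh] using h (j + s), fun h j => h _⟩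
theorem deg_add (a b : I t → ℕ) : deg (a + b) = deg a + deg b := sum_add_distrib
theorem deg_sh (s : I t) (a : I t → ℕ) : deg (sh s a) = deg a :=
  Equiv.sum_comp (Equiv.subRight s) a
theorem deg_e (j : I t) : deg (e j) = 1 := by simp [deg, e, Pi.single_apply]
theorem deg_z : deg (0 : I t → ℕ) = 0 := by simp [deg]
theorem e_same (j : I t) : e j j = 1 := by simp [e]
theorem e_ne {i j : I t} (h : i ≠ j) : e j i = 0 := by simp [e, h]

theorem chi_addl (a b c : I t → ℕ) : chi K (a + b) c = chi K a c * chi K b c := by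
  simp only [chi, bb, ← pow_add, ← sum_add_distrib, Pi.add_apply, add_mul]
theorem chi_addr (a b c : I t → ℕ) : chi K a (b + c) = chi K a b * chi K a c := by
  simp only [chi, bb, ← pow_add, ← sum_add_distrib, Pi.add_apply, add_mul, mul_add]
theorem chi_zl (a : I t → ℕ) : chi K 0 a = 1 := by simp [chi, bb]
theorem chi_zr (a : I t → ℕ) : chi K a 0 = 1 := by simp [chi, bb]
theorem chi_sq (a b : I t → ℕ) : chi K a b * chi K a b = 1 := by
  rw [chi, ← mul_pow]; simp
theorem chi_sh (s : I t) (a b : I t → ℕ) : chi K (sh s a) (sh s b) = chi K a b := by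
  unfold chi bb
  congr 1
  rw [← Equiv.sum_comp (Equiv.subRight s) (fun i => ∑ j, a i * b j * (j - i).val)]
  refine sum_congr rfl fun i _ => ?_
  rw [← Equiv.sum_comp (Equiv.subRight s) (fun j => a (Equiv.subRight s i) * b j *
    (j - Equiv.subRight s i).val)]
  refine sum_congr rfl fun j _ => ?_
  simp [sh]

theorem bb_el (j : I t) (b : I t → ℕ) : bb (e j) b = ∑ i, b i * (i - j).val := by
  unfold bb
  rw [sum_eq_single j]
  · simp [e_same]
  · intro i _ hi; simp [e_ne hi]
  · simp
theorem bb_er (j : I t) (b : I t → ℕ) : bb b (e j) = ∑ i, b i * (j - i).val := by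
  unfold bb
  refine sum_congr rfl fun i _ => ?_
  rw [sum_eq_single j]
  · simp [e_same]
  · intro l _ hl; simp [e_ne hl]
  · simp

theorem val_add_val {i j : I t} (h : i ≠ j) : (j - i).val + (i - j).val = 2 * t + 3 := by
  have h1 : i - j ≠ 0 := sub_ne_zero.2 h
  have h2 : j - i = -(i - j) := by ring
  rw [h2, ZMod.neg_val, if_neg h1]
  have := ZMod.val_lt (i - j)
  omega

theorem chi_comm (j : I t) (b : I t → ℕ) :
    chi K b (e j) * chi K (e j) b = (-1) ^ deg b * (-1) ^ b j := by
  have h : ((-1 : K)) ^ b j = ∏ i, if i = j then (-1) ^ b i else 1 := by simp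
  rw [h, chi, chi, bb_el, bb_er, deg, ← prod_pow_eq_pow_sum, ← prod_pow_eq_pow_sum,
    ← prod_pow_eq_pow_sum, ← prod_mul_distrib, ← prod_mul_distrib]
  refine prod_congr rfl fun i _ => ?_
  by_cases hi : i = j
  · subst hi
    simp [← mul_pow]
  · rw [if_neg hi, ← pow_add, ← mul_add, val_add_val hi, mul_comm, pow_mul, mul_one]
    congr 1
    rw [pow_add, pow_mul]; norm_num

theorem chi_ee {i j : I t} (h : i ≠ j) : chi K (e i) (e j) * chi K (e j) (e i) = -1 := by
  rw [chi_comm, deg_e, e_ne h.symm]; norm_num

theorem chi_e_same (j : I t) : chi K (e j) (e j) = 1 := by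
  rw [chi, bb_el, sum_eq_single j]
  · simp
  · intro i _ hi; simp [e_ne hi]
  · simp

noncomputable def mulB (K : Type) [Field K] (a b : I t → ℕ) : E K t :=
  chi K a (sh (deg a) b) • u K (a + sh (deg a) b)

theorem mulB_l {a : I t → ℕ} (h : ¬ inb a) (b : I t → ℕ) : mulB K a b = 0 := by
  rw [mulB, u_out, smul_zero]
  exact fun h' => h fun j => lt_of_le_of_lt (Nat.le_add_right _ _) (h' j)

theorem mulB_r (a : I t → ℕ) {b : I t → ℕ} (h : ¬ inb b) : mulB K a b = 0 := by
  rw [mulB, u_out, smul_zero]
  exact fun h' => h ((inb_sh _ b).1 fun j => lt_of_le_of_lt (Nat.le_add_left _ _) (h' j))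

noncomputable def mulL : E K t →ₗ[K] E K t →ₗ[K] E K t := lift fun a => lift fun b => mulB K a b

theorem mulL_u (a b : I t → ℕ) : mulL (u K a) (u K b) = mulB K a b := by
  by_cases h : inb a
  · rw [mulL, lift_in _ h, lift_u _ (fun b hb => mulB_r a hb)]
  · rw [u_out h, map_zero, LinearMap.zero_apply, mulB_l h]

theorem assoc_u (a b c : I t → ℕ) :
    mulL (mulL (u K a) (u K b)) (u K c) = mulL (u K a) (mulL (u K b) (u K c)) := by
  simp only [mulL_u, mulB, map_smul, LinearMap.smul_apply, smul_smul, deg_add, deg_sh, sh_add, sh_sh,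
    Nat.cast_add, chi_addl, chi_addr, add_assoc]
  rw [← chi_sh (deg a) b (sh (deg b) c), sh_sh]
  congr 1
  ring

theorem assocL (x y z : E K t) : mulL (mulL x y) z = mulL x (mulL y z) := by
  induction x using E_ind with
  | h0 => simp
  | ha x x' h h' => simp only [map_add, LinearMap.add_apply, h, h']
  | hs c x h => simp only [map_smul, LinearMap.smul_apply, h]
  | hu a _ =>
    induction y using E_ind with
    | h0 => simp
    | ha y y' h h' => simp only [map_add, LinearMap.add_apply, h, h']
    | hs c y h => simp only [map_smul, LinearMap.smul_apply, h]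
    | hu b _ =>
      induction z using E_ind with
      | h0 => simp
      | ha z z' h h' => simp only [map_add, h, h']
      | hs c z h => simp only [map_smul, h]
      | hu c _ => exact assoc_u a b c

noncomputable instance : Ring (E K t) :=
  { (inferInstance : AddCommGroup (E K t)) with
    mul := fun x y => mulL x y
    one := u K 0
    mul_assoc := assocL
    left_distrib := fun a b c => (mulL a).map_add b c
    right_distrib := fun a b c => LinearMap.congr_fun (mulL.map_add a b) c
    zero_mul := fun a => LinearMap.congr_fun mulL.map_zero a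
    mul_zero := fun a => (mulL a).map_zero
    one_mul := fun a => by
      have : mulL (u K (0 : I t → ℕ)) = LinearMap.id := lext fun b _ => by
        simp [mulL_u, mulB, deg_z, sh_zero, chi_zl]
      exact LinearMap.congr_fun this a
    mul_one := fun a => by
      have : mulL.flip (u K (0 : I t → ℕ)) = LinearMap.id := lext fun b _ => by
        simp [mulL_u, mulB, sh_z, chi_zr]
      exact LinearMap.congr_fun this a }

noncomputable instance : Algebra K (E K t) := Algebra.ofModule
  (fun c x y => LinearMap.congr_fun (mulL.map_smul c x) y)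
  (fun c x y => (mulL x).map_smul c y)

theorem u_mul (a b : I t → ℕ) : u K a * u K b = chi K a (sh (deg a) b) • u K (a + sh (deg a) b) :=
  mulL_u a b

theorem one_def : (1 : E K t) = u K 0 := rfl

noncomputable def T (s : I t) : E K t →ₗ[K] E K t := lift fun a => u K (sh s a)

theorem T_u (s : I t) (a : I t → ℕ) : T s (u K a) = u K (sh s a) :=
  lift_u _ (fun a h => u_out fun h' => h ((inb_sh s a).1 h')) a

theorem T_mul (s : I t) (x y : E K t) : T s (x * y) = T s x * T s y := by
  induction x using E_ind with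
  | h0 => simp
  | ha x x' h h' => simp only [map_add, add_mul, h, h']
  | hs c x h => simp only [map_smul, smul_mul_assoc, h]
  | hu a _ =>
    induction y using E_ind with
    | h0 => simp
    | ha y y' h h' => simp only [map_add, mul_add, h, h']
    | hs c y h => simp only [map_smul, mul_smul_comm, h]
    | hu b _ =>
      simp only [u_mul, map_smul, T_u, deg_sh, sh_add, sh_sh]
      rw [← chi_sh s a, sh_sh, add_comm s]

noncomputable def al : E K t ≃ₐ[K] E K t :=
  AlgEquiv.ofLinearEquiv
    (LinearEquiv.ofLinear (T 1) (T (-1))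
      (lext fun a _ => by simp [T_u, sh_sh, sh_zero])
      (lext fun a _ => by simp [T_u, sh_sh, sh_zero]))
    (T_u 1 0) (T_mul 1)

theorem al_eq (x : E K t) : al x = T 1 x := rfl

theorem al_u (a : I t → ℕ) : al (u K a) = u K (sh 1 a) := T_u 1 a

end Pool.Agent.helper67DD
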