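import Pool.Agent.helper67DD.G

/-! Descent from the rational function field: exactness over every field with `2 ≠ 0`. -/

namespace Pool.Agent.helper67DD

open Finset

variable {K L : Type} [Field K] [Field L] {t : ℕ}

/-- Apply an additive map to all coefficients. -/
noncomputable def mp (φ : K →+ L) : E K t →+ E L t :=
  (Finsupp.mapRange.addMonoidHom φ : (Box t →₀ K) →+ (Box t →₀ L))

theorem smul_sg (c : K) (b : Box t) : c • sg K b = (Finsupp.single b c : Box t →₀ K) := by
  change c • (Finsupp.single b (1 : K) : Box t →₀ K) = _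
  rw [Finsupp.smul_single, smul_eq_mul, mul_one]

theorem mp_u (φ : K →+ L) (c : K) (a : I t → ℕ) : mp φ (c • u K a) = φ c • u L a := by
  by_cases h : inb a
  · rw [u, dif_pos h, u, dif_pos h, smul_sg, smul_sg]
    exact Finsupp.mapRange_single (hf := map_zero φ)
  · rw [u_out h, u_out h, smul_zero, smul_zero, map_zero]

theorem mp_sum {ι : Type} (φ : K →+ L) (s : Finset ι) (f : ι → E K t) :
    mp φ (∑ i ∈ s, f i) = ∑ i ∈ s, mp φ (f i) := map_sum _ _ _

theorem mp_neg_pow (φ : K →+ L) (n : ℕ) (c : K) : φ ((-1) ^ n * c) = (-1) ^ n * φ c := by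
  rcases Nat.even_or_odd n with h | h
  · rw [h.neg_one_pow, h.neg_one_pow, one_mul, one_mul]
  · rw [h.neg_one_pow, h.neg_one_pow, neg_one_mul, neg_one_mul, map_neg]

theorem mp_chi (φ : K →+ L) (a b : I t → ℕ) (c : K) : φ (chi K a b * c) = chi L a b * φ c :=
  mp_neg_pow φ _ c

theorem mp_eta (φ : K →+ L) (s : ℕ) (j : I t) (c : K) : φ (eta K s j * c) = eta L s j * φ c := by
  unfold eta
  split_ifs
  · rw [mul_neg_one, mul_neg_one, neg_mul, neg_mul, map_neg, mp_neg_pow]
  · rw [mul_one, mul_one, mp_neg_pow]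

theorem ind2 {P : E K t → Prop} (h0 : P 0) (ha : ∀ x y, P x → P y → P (x + y))
    (hu : ∀ (c : K) (a : I t → ℕ), P (c • u K a)) (z : E K t) : P z := by
  refine Finsupp.induction_linear (motive := P) z h0 ha ?_
  intro b c
  have h := hu c (vl b)
  rw [u_vl, smul_sg] at h
  exact h

theorem mp_wmul (φ : K →+ L) (s : ℕ) (x : E K t) : mp φ (w K s * x) = w L s * mp φ x := by
  induction x using ind2 with
  | h0 => simp
  | ha x y h h' => simp only [mul_add, map_add, h, h']
  | hu c a =>
    rw [mp_u, w, w, sum_mul, sum_mul, mp_sum]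
    refine sum_congr rfl fun j _ => ?_
    rw [smul_mul_smul_comm, smul_mul_smul_comm, u_mul, u_mul, smul_smul, smul_smul, mp_u]
    congr 1
    rw [show eta K s j * c * chi K (e j) (sh (deg (e j)) a) =
      eta K s j * (chi K (e j) (sh (deg (e j)) a) * c) by ring, mp_eta, mp_chi]
    ring

theorem mp_mulw (φ : K →+ L) (s : ℕ) (x : E K t) : mp φ (x * w K s) = mp φ x * w L s := by
  induction x using ind2 with
  | h0 => simp
  | ha x y h h' => simp only [add_mul, map_add, h, h']
  | hu c a =>
    rw [mp_u, w, w, mul_sum, mul_sum, mp_sum]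
    refine sum_congr rfl fun j _ => ?_
    rw [smul_mul_smul_comm, smul_mul_smul_comm, u_mul, u_mul, smul_smul, smul_smul, mp_u]
    congr 1
    rw [show c * eta K s j * chi K a (sh (deg a) (e j)) =
      eta K s j * (chi K a (sh (deg a) (e j)) * c) by ring, mp_eta, mp_chi]
    ring

theorem mp_al (φ : K →+ L) (x : E K t) : mp φ (al x) = al (mp φ x) := by
  induction x using ind2 with
  | h0 => simp
  | ha x y h h' => simp only [map_add, h, h']
  | hu c a =>
    have h1 : al (c • u K a) = c • u K (sh 1 a) := by rw [map_smul, al_u]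
    have h2 : al (φ c • u L a) = φ c • u L (sh 1 a) := by rw [map_smul, al_u]
    rw [mp_u, h1, h2, mp_u]

theorem mp_mp (φ : K →+ L) (ψ : L →+ K) (h : ∀ c, ψ (φ c) = c) (x : E K t) :
    mp ψ (mp φ x) = x := by
  induction x using ind2 with
  | h0 => simp
  | ha x y h h' => simp only [map_add, h, h']
  | hu c a => rw [mp_u, mp_u, h]

/-- Weights with nonzero subset sums in the rational function field. -/
theorem weights (Z : Finset (I t)) (hZ : Z.Nonempty) :
    ∑ j ∈ Z, (RatFunc.X : RatFunc K) ^ (j.val) ≠ 0 := by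
  intro h
  have h1 : algebraMap (Polynomial K) (RatFunc K) (∑ j ∈ Z, Polynomial.X ^ (j.val)) = 0 := by
    rw [map_sum, ← h]
    refine sum_congr rfl fun j _ => ?_
    rw [map_pow, RatFunc.algebraMap_X]
  have h2 : (∑ j ∈ Z, (Polynomial.X : Polynomial K) ^ (j.val)) = 0 :=
    (map_eq_zero_iff _ (RatFunc.algebraMap_injective K)).1 h1
  obtain ⟨i, hi⟩ := hZ
  have h3 := congrArg (fun p => Polynomial.coeff p i.val) h2
  simp only [Polynomial.finsetSum_coeff, Polynomial.coeff_X_pow, Polynomial.coeff_zero] at h3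
  rw [sum_eq_single i] at h3
  · simp at h3
  · intro j _ hj
    rw [if_neg]
    intro he
    exact hj (ZMod.val_injective _ he.symm)
  · intro h4
    exact absurd hi h4

theorem exactM (h2' : (2 : K) ≠ 0) (i : ℕ) (hi : i < 2 * t + 2) (a : E K t)
    (h : w K (i + 1) * a - al a * w K 0 = 0) :
    ∃ b, a = w K i * b - al b * w K 0 := by
  let L := RatFunc K
  let ι : K →+ L := (algebraMap K L).toAddMonoidHom
  obtain ⟨r, hr⟩ := LinearMap.exists_leftInverse_of_injective (Algebra.linearMap K L)
    (LinearMap.ker_eq_bot.2 (algebraMap K L).injective)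
  let ρ : L →+ K := r.toAddMonoidHom
  have hρ : ∀ c, ρ (ι c) = c := fun c => LinearMap.congr_fun hr c
  have h2L : (2 : L) ≠ 0 := by
    have : (2 : L) = algebraMap K L 2 := (map_ofNat (algebraMap K L) 2).symm
    rw [this]
    exact (map_ne_zero_iff _ (algebraMap K L).injective).2 h2'
  obtain ⟨b, hb⟩ := exactM0 (K := L) (t := t) (fun j => RatFunc.X ^ (j.val)) h2L
    (fun Z hZ => weights Z hZ) i hi (mp ι a) (by
      rw [← mp_wmul, ← mp_al, ← mp_mulw, ← map_sub, h, map_zero])
  refine ⟨mp ρ b, ?_⟩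
  rw [← mp_wmul, ← mp_al, ← mp_mulw, ← map_sub, ← hb, mp_mp ι ρ hρ]

open Pool.Agent.H.MP_1ef125_al in
noncomputable def qdata (K : Type) [Field K] (h2' : (2 : K) ≠ 0) (t : ℕ) :
    QData K (E K t) (2 * t + 2) where
  al := al
  W := W K
  hW := al_W
  hWn := W_norm
  w := w K
  r := 4 * t + 5
  hper := w_per
  hw := w_succ
  hww := w_w h2'
  hM := exactM h2'
  lam := co K (top t)
  hlam := lam_nd
  F := F K
  hF0 := F_zero
  hFmul := F_mul
  hFal := F_al
  top := (2 * t + 3) * LL t
  hFtop := F_top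
  hw1 := w_F
  h1 := one_F
  hdec := F_dec

end Pool.Agent.helper67DD
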